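import Mathlib

/-!
MP_7d29a1_pr, STORM X, (ES'), the steep steps (helper43, 53518): LEMMA S, pure and deterministic.

Windows: `(i, k)` is the interval of times `[k R₀ ^ i, (k + 1) R₀ ^ i)`. `x t` is the (centred) position of the path at the time
`t`, `ds R₀ x i k` the displacement over the window `(i, k)`, `c i D` the cost of the displacement `D` in the time `R₀ ^ i`.
`w i k` is the logarithm of the point to point weight of the window between the positions of the path, `A i k` the sum of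
luck, lack of luck and entropy of the window.
-/

namespace Pool.Agent.W_7d29a1_XS

open Finset

noncomputable section

/-- The displacement of the path in the window `(i, k)`. -/
def ds (R₀ : ℕ) (x : ℕ → ℝ) (i k : ℕ) : ℝ := |x ((k + 1) * R₀ ^ i) - x (k * R₀ ^ i)|

/-- The properties of the costs: `c i D = n J (D / n)`, `n = R₀ ^ i`, `J` convex, doubling and superlinear. -/
structure Cost (R₀ : ℕ) (c : ℕ → ℝ → ℝ) (cap : ℕ → ℝ) (K₂ ε : ℝ) : Prop where
  nn : ∀ i D, 0 ≤ c i D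
  zero : ∀ i, c i 0 = 0
  mono : ∀ i D D', 0 ≤ D → D ≤ D' → D' ≤ cap i → c i D ≤ c i D'
  /-- The capacity is linear in the time. -/
  cap_succ : ∀ i, R₀ * cap i ≤ cap (i + 1)
  cap_nn : ∀ i, 0 ≤ cap i
  /-- Convexity. -/
  sub : ∀ i (D : ℕ → ℝ), (∀ r < R₀, 0 ≤ D r ∧ D r ≤ cap i) → c (i + 1) (∑ r ∈ range R₀, D r) ≤ ∑ r ∈ range R₀, c i (D r)
  /-- Doubling. -/
  dbl : ∀ i D Y, 0 ≤ D → D ≤ 2 * Y → D ≤ cap i → Y ≤ cap i → c i D ≤ K₂ * c i Y
  /-- Superlinear growth. -/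
  sup : ∀ i D Y, 0 ≤ D → D ≤ 2 * Y → D ≤ cap (i + 1) → Y ≤ cap i → c (i + 1) D ≤ ε * c i Y

/-- A class of windows which contains with a window all its children. -/
def Her (R₀ : ℕ) (P : ℕ → ℕ → Prop) : Prop := ∀ i k, P (i + 1) k → ∀ r < R₀, P i (R₀ * k + r)

variable {R₀ : ℕ} {c : ℕ → ℝ → ℝ} {cap : ℕ → ℝ} {K₂ ε : ℝ} {x : ℕ → ℝ} {P : ℕ → ℕ → Prop}

theorem ds_nonneg (i k : ℕ) : 0 ≤ ds R₀ x i k := abs_nonneg _

/-- The displacement over a window is at most the sum over its children. -/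
theorem ds_le_sum (i k : ℕ) : ds R₀ x (i + 1) k ≤ ∑ r ∈ range R₀, ds R₀ x i (R₀ * k + r) := by
  have key : ∀ n : ℕ, |x ((R₀ * k + n) * R₀ ^ i) - x (R₀ * k * R₀ ^ i)| ≤ ∑ r ∈ range n, ds R₀ x i (R₀ * k + r) := by
    intro n
    induction n with
    | zero => simp
    | succ n ih =>
      rw [sum_range_succ]
      have h1 : |x ((R₀ * k + (n + 1)) * R₀ ^ i) - x (R₀ * k * R₀ ^ i)| ≤
          |x ((R₀ * k + (n + 1)) * R₀ ^ i) - x ((R₀ * k + n) * R₀ ^ i)| + |x ((R₀ * k + n) * R₀ ^ i) - x (R₀ * k * R₀ ^ i)| :=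
        abs_sub_le _ _ _
      have h2 : ds R₀ x i (R₀ * k + n) = |x ((R₀ * k + (n + 1)) * R₀ ^ i) - x ((R₀ * k + n) * R₀ ^ i)| := by
        unfold ds; rw [show R₀ * k + n + 1 = R₀ * k + (n + 1) from by ring]
      rw [h2]; linarith
  have h := key R₀
  have e1 : (R₀ * k + R₀) * R₀ ^ i = (k + 1) * R₀ ^ (i + 1) := by ring
  have e2 : R₀ * k * R₀ ^ i = k * R₀ ^ (i + 1) := by ring
  rw [e1, e2] at h
  exact h

/-- The cost of a window along the path. -/
def cc (R₀ : ℕ) (c : ℕ → ℝ → ℝ) (x : ℕ → ℝ) (i k : ℕ) : ℝ := c i (ds R₀ x i k)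

/-- The ancestor of the window `(s, k)` at the level `s + i`. -/
def an (R₀ k i : ℕ) : ℕ := k / R₀ ^ i

/-- The costs of the siblings. -/
def sib (R₀ : ℕ) (f : ℕ → ℕ → ℝ) (s k i : ℕ) : ℝ :=
  ∑ r ∈ (range R₀).erase (an R₀ k i % R₀), f (s + i) (R₀ * an R₀ k (i + 1) + r)

/-- The cost of the window `(s, k)` and of all siblings of its ancestors below the level `s + i`. -/
def Tw (R₀ : ℕ) (f : ℕ → ℕ → ℝ) (s k : ℕ) : ℕ → ℝ
  | 0 => f s k
  | i + 1 => Tw R₀ f s k i + sib R₀ f s k i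

theorem an_succ (k i : ℕ) : an R₀ k (i + 1) = an R₀ k i / R₀ := by
  unfold an; rw [pow_succ, Nat.div_div_eq_div_mul]

/-- The sum over the children of an ancestor is the next ancestor and its siblings. -/
theorem sum_children (hR : 0 < R₀) (f : ℕ → ℕ → ℝ) (s k i : ℕ) :
    ∑ r ∈ range R₀, f (s + i) (R₀ * an R₀ k (i + 1) + r) = f (s + i) (an R₀ k i) + sib R₀ f s k i := by
  unfold sib
  have hm : an R₀ k i % R₀ ∈ range R₀ := mem_range.2 (Nat.mod_lt _ hR)
  rw [← add_sum_erase _ _ hm, an_succ, Nat.div_add_mod]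

theorem P_prev (hP : Her R₀ P) (hR : 0 < R₀) {s k i : ℕ} (h : P (s + (i + 1)) (an R₀ k (i + 1))) : P (s + i) (an R₀ k i) := by
  have := hP (s + i) _ h (an R₀ k i % R₀) (Nat.mod_lt _ hR)
  rwa [an_succ, Nat.div_add_mod] at this

theorem P_le (hP : Her R₀ P) (hR : 0 < R₀) {s k b : ℕ} (h : P (s + b) (an R₀ k b)) : ∀ i ≤ b, P (s + i) (an R₀ k i) := by
  intro i hi
  obtain ⟨d, rfl⟩ := Nat.exists_eq_add_of_le hi
  clear hi
  induction d with
  | zero => exact h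
  | succ d ih => exact ih (P_prev hP hR h)

/-- Convexity along the Whitney decomposition: the cost of an ancestor is at most the cost of the decomposition. -/
theorem cc_le_Tw (hc : Cost R₀ c cap K₂ ε) (hR : 0 < R₀) (hP : Her R₀ P) (hx : ∀ i k, P i k → ds R₀ x i k ≤ cap i) (s k : ℕ) (i : ℕ)
    (hPi : P (s + i) (an R₀ k i)) :
    cc R₀ c x (s + i) (an R₀ k i) ≤ Tw R₀ (cc R₀ c x) s k i := by
  induction i with
  | zero => simp [Tw, an]
  | succ i ih =>
    have ih := ih (P_prev hP hR hPi)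
    have hch := hP (s + i) _ hPi
    have h1 : cc R₀ c x (s + (i + 1)) (an R₀ k (i + 1)) ≤ ∑ r ∈ range R₀, cc R₀ c x (s + i) (R₀ * an R₀ k (i + 1) + r) := by
      have hle := ds_le_sum (R₀ := R₀) (x := x) (s + i) (an R₀ k (i + 1))
      have hcap : ∑ r ∈ range R₀, ds R₀ x (s + i) (R₀ * an R₀ k (i + 1) + r) ≤ cap (s + i + 1) := by
        refine le_trans (sum_le_sum fun r hr => hx _ _ (hch r (mem_range.1 hr))) ?_
        rw [sum_const, card_range, nsmul_eq_mul]; exact hc.cap_succ _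
      exact le_trans (hc.mono _ _ _ (ds_nonneg _ _) hle hcap) (hc.sub (s + i) _ fun r hr => ⟨ds_nonneg _ _, hx _ _ (hch r hr)⟩)
    rw [sum_children hR] at h1
    simp only [Tw]
    linarith

theorem cc_nonneg (hc : Cost R₀ c cap K₂ ε) (i k : ℕ) : 0 ≤ cc R₀ c x i k := hc.nn _ _

theorem sib_nonneg {f : ℕ → ℕ → ℝ} (hf : ∀ i k, 0 ≤ f i k) (s k i : ℕ) : 0 ≤ sib R₀ f s k i :=
  sum_nonneg fun _ _ => hf _ _

theorem Tw_nonneg {f : ℕ → ℕ → ℝ} (hf : ∀ i k, 0 ≤ f i k) (s k i : ℕ) : 0 ≤ Tw R₀ f s k i := by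
  induction i with
  | zero => exact hf _ _
  | succ i ih => exact add_nonneg ih (sib_nonneg hf _ _ _)

/-- One step of the growth: if the decomposition is almost paid by the cost of the window, then it grows. -/
theorem Tw_growth (hc : Cost R₀ c cap K₂ ε) (hR : 0 < R₀) (hP : Her R₀ P) (hx : ∀ i k, P i k → ds R₀ x i k ≤ cap i) {K : ℝ} (hK : 0 < K) (hK₂ : 0 < K₂)
    (hε : 2 * K * ε < 1) (s k i : ℕ) (hPi : P (s + (i + 1)) (an R₀ k (i + 1))) (hT : 0 < Tw R₀ (cc R₀ c x) s k (i + 1))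
    (h : Tw R₀ (cc R₀ c x) s k (i + 1) ≤ 2 * K * cc R₀ c x (s + (i + 1)) (an R₀ k (i + 1))) :
    (1 + 1 / (2 * K * K₂)) * Tw R₀ (cc R₀ c x) s k i ≤ Tw R₀ (cc R₀ c x) s k (i + 1) := by
  set f := cc R₀ c x with hf
  have hfn : ∀ i k, 0 ≤ f i k := fun i k => cc_nonneg hc i k
  have hPp := P_prev hP hR hPi
  have hch := hP (s + i) _ hPi
  -- the displacement of the siblings
  set Y : ℝ := ∑ r ∈ (range R₀).erase (an R₀ k i % R₀), ds R₀ x (s + i) (R₀ * an R₀ k (i + 1) + r) with hY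
  have hY0 : 0 ≤ Y := sum_nonneg fun _ _ => ds_nonneg _ _
  have hsum : ds R₀ x (s + i + 1) (an R₀ k (i + 1)) ≤ ds R₀ x (s + i) (an R₀ k i) + Y := by
    refine le_trans (ds_le_sum _ _) (le_of_eq ?_)
    have hm : an R₀ k i % R₀ ∈ range R₀ := mem_range.2 (Nat.mod_lt _ hR)
    rw [← add_sum_erase _ _ hm, hY]
    congr 2
    rw [an_succ, Nat.div_add_mod]
  have hTT : Tw R₀ f s k (i + 1) = Tw R₀ f s k i + sib R₀ f s k i := rfl
  have hTi : f (s + i) (an R₀ k i) ≤ Tw R₀ f s k i := cc_le_Tw hc hR hP hx s k i hPp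
  have hmono : Tw R₀ f s k i ≤ Tw R₀ f s k (i + 1) := by rw [hTT]; linarith [sib_nonneg (R₀ := R₀) hfn s k i]
  have hlarge : ds R₀ x (s + i) (an R₀ k i) < Y := by
    by_contra hcon
    push Not at hcon
    have h1 : f (s + (i + 1)) (an R₀ k (i + 1)) ≤ ε * f (s + i) (an R₀ k i) := by
      refine hc.sup (s + i) _ _ (ds_nonneg _ _) ?_ (hx _ _ hPi) (hx _ _ hPp)
      have := hsum
      rw [show s + (i + 1) = s + i + 1 from rfl] at *
      linarith
    have hε0 : 0 ≤ ε * f (s + i) (an R₀ k i) := le_trans (hfn _ _) h1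
    have h2 : Tw R₀ f s k (i + 1) ≤ 2 * K * (ε * f (s + i) (an R₀ k i)) :=
      le_trans h (by have := mul_le_mul_of_nonneg_left h1 (by positivity : (0 : ℝ) ≤ 2 * K); linarith)
    rcases le_or_gt ε 0 with hε' | hε'
    · have : ε * f (s + i) (an R₀ k i) ≤ 0 := mul_nonpos_of_nonpos_of_nonneg hε' (hfn _ _)
      have : 2 * K * (ε * f (s + i) (an R₀ k i)) ≤ 0 := mul_nonpos_of_nonneg_of_nonpos (by positivity) this
      linarith
    · have h3 : ε * f (s + i) (an R₀ k i) ≤ ε * Tw R₀ f s k (i + 1) := mul_le_mul_of_nonneg_left (hTi.trans hmono) hε'.le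
      have h4 : 2 * K * (ε * f (s + i) (an R₀ k i)) ≤ 2 * K * (ε * Tw R₀ f s k (i + 1)) :=
        mul_le_mul_of_nonneg_left h3 (by positivity)
      have h5 : 2 * K * (ε * Tw R₀ f s k (i + 1)) < Tw R₀ f s k (i + 1) := by
        have := mul_lt_mul_of_pos_right hε hT; nlinarith
      linarith
  have hYcap : Y ≤ cap (s + (i + 1)) := by
    refine le_trans ?_ (hc.cap_succ (s + i))
    refine le_trans (sum_le_sum fun r hr => hx _ _ (hch r (mem_range.1 (mem_of_mem_erase hr)))) ?_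
    rw [sum_const, nsmul_eq_mul]
    refine mul_le_mul_of_nonneg_right ?_ (hc.cap_nn _)
    exact_mod_cast le_trans (card_le_card (erase_subset _ _)) (le_of_eq (card_range _))
  have h1 : f (s + (i + 1)) (an R₀ k (i + 1)) ≤ K₂ * c (s + (i + 1)) Y := by
    refine hc.dbl _ _ _ (ds_nonneg _ _) ?_ (hx _ _ hPi) hYcap
    have := hsum
    rw [show s + (i + 1) = s + i + 1 from rfl] at *
    linarith
  -- convexity with one displacement zero
  have h2 : c (s + i + 1) Y ≤ sib R₀ f s k i := by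
    have hm : an R₀ k i % R₀ ∈ range R₀ := mem_range.2 (Nat.mod_lt _ hR)
    set D : ℕ → ℝ := fun r => if r = an R₀ k i % R₀ then 0 else ds R₀ x (s + i) (R₀ * an R₀ k (i + 1) + r) with hD
    have e1 : ∑ r ∈ range R₀, D r = Y := by
      rw [← add_sum_erase _ _ hm, hY]
      have : D (an R₀ k i % R₀) = 0 := by simp [hD]
      rw [this, zero_add]
      refine sum_congr rfl fun r hr => ?_
      have : r ≠ an R₀ k i % R₀ := (mem_erase.1 hr).1
      simp [hD, this]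
    have e2 : ∑ r ∈ range R₀, c (s + i) (D r) = sib R₀ f s k i := by
      rw [← add_sum_erase _ _ hm]
      have : D (an R₀ k i % R₀) = 0 := by simp [hD]
      rw [this, hc.zero, zero_add]
      refine sum_congr rfl fun r hr => ?_
      have : r ≠ an R₀ k i % R₀ := (mem_erase.1 hr).1
      simp [hD, this, hf, cc]
    have := hc.sub (s + i) D (by
      intro r hrR
      by_cases hr : r = an R₀ k i % R₀
      · simp only [hD, hr, if_true]; exact ⟨le_refl _, hc.cap_nn _⟩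
      · simp only [hD, hr, if_false]; exact ⟨ds_nonneg _ _, hx _ _ (hch r hrR)⟩)
    rw [e1, e2] at this
    exact this
  have h3 : f (s + (i + 1)) (an R₀ k (i + 1)) ≤ K₂ * sib R₀ f s k i :=
    le_trans h1 (mul_le_mul_of_nonneg_left h2 hK₂.le)
  have h4 : Tw R₀ f s k (i + 1) ≤ 2 * K * K₂ * sib R₀ f s k i := by
    have := mul_le_mul_of_nonneg_left h3 (by positivity : (0 : ℝ) ≤ 2 * K)
    calc Tw R₀ f s k (i + 1) ≤ _ := h
      _ ≤ 2 * K * (K₂ * sib R₀ f s k i) := this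
      _ = _ := by ring
  have h5 : 1 / (2 * K * K₂) * Tw R₀ f s k i ≤ sib R₀ f s k i := by
    rw [div_mul_eq_mul_div, one_mul, div_le_iff₀ (by positivity)]
    linarith
  rw [hTT]; linarith

/-- Lemma S (2): a child has at most the cost `2 X + δ c(Q)`. -/
theorem child_le (hc : Cost R₀ c cap K₂ ε) (hR : 0 < R₀) (hP : Her R₀ P) (hx : ∀ i k, P i k → ds R₀ x i k ≤ cap i) {K X : ℝ} (hK : 1 ≤ K) (hK₂ : 0 < K₂)
    (hε : 2 * K * ε < 1) (s k b : ℕ) (hPb : P (s + b) (an R₀ k b)) (hX : 0 ≤ X)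
    (h : ∀ i ≤ b, Tw R₀ (cc R₀ c x) s k i ≤ K * cc R₀ c x (s + i) (an R₀ k i) + X) :
    cc R₀ c x s k ≤ 2 * X + 2 * K * ((1 + 1 / (2 * K * K₂))⁻¹) ^ b * cc R₀ c x (s + b) (an R₀ k b) := by
  have hK0 : 0 < K := by linarith
  set f := cc R₀ c x with hf
  have hfn : ∀ i k, 0 ≤ f i k := fun i k => cc_nonneg hc i k
  have hq : 0 < 1 + 1 / (2 * K * K₂) := by positivity
  have hpos : 0 ≤ 2 * K * ((1 + 1 / (2 * K * K₂))⁻¹) ^ b * f (s + b) (an R₀ k b) := by
    have := hfn (s + b) (an R₀ k b); positivity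
  by_cases hcs : f s k ≤ 2 * X
  · linarith
  push Not at hcs
  have hTs : ∀ i, f s k ≤ Tw R₀ f s k i := by
    intro i
    induction i with
    | zero => exact le_refl _
    | succ i ih => exact le_trans ih (by simp only [Tw]; linarith [sib_nonneg (R₀ := R₀) hfn s k i])
  have hT2 : ∀ i ≤ b, Tw R₀ f s k i ≤ 2 * K * f (s + i) (an R₀ k i) := by
    intro i hi
    have h1 := h i hi
    have h2 := hTs i
    linarith
  have hgrow : ∀ i ≤ b, (1 + 1 / (2 * K * K₂)) ^ i * f s k ≤ Tw R₀ f s k i := by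
    intro i
    induction i with
    | zero => intro _; simp [Tw]
    | succ i ih =>
      intro hi
      have h1 := ih (by omega)
      have h2 := Tw_growth hc hR hP hx hK0 hK₂ hε s k i (P_le hP hR hPb _ hi) (lt_of_lt_of_le (lt_of_le_of_lt (by linarith) hcs) (hTs _)) (hT2 (i + 1) hi)
      calc (1 + 1 / (2 * K * K₂)) ^ (i + 1) * f s k = (1 + 1 / (2 * K * K₂)) * ((1 + 1 / (2 * K * K₂)) ^ i * f s k) := by ring
        _ ≤ (1 + 1 / (2 * K * K₂)) * Tw R₀ f s k i := mul_le_mul_of_nonneg_left h1 hq.le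
        _ ≤ _ := h2
  have h1 := hgrow b le_rfl
  have h2 := hT2 b le_rfl
  have h3 : f s k ≤ 2 * K * ((1 + 1 / (2 * K * K₂))⁻¹) ^ b * f (s + b) (an R₀ k b) := by
    rw [inv_pow]
    have hqb : 0 < (1 + 1 / (2 * K * K₂)) ^ b := by positivity
    rw [show 2 * K * ((1 + 1 / (2 * K * K₂)) ^ b)⁻¹ * f (s + b) (an R₀ k b) =
      (2 * K * f (s + b) (an R₀ k b)) / (1 + 1 / (2 * K * K₂)) ^ b from by ring]
    rw [le_div_iff₀ hqb]
    linarith
  linarith

/-- Lemma S (3): the squares of the costs of the children. -/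
theorem one_window {ι : Type*} (S : Finset ι) (g : ι → ℝ) (hg : ∀ r ∈ S, 0 ≤ g r) {K X δ C : ℝ} (hK : 1 ≤ K) (hδ : 0 < δ)
    (hX : 0 ≤ X) (hC : 0 ≤ C) (h1 : ∀ r ∈ S, g r ≤ 2 * X + δ * C) (h2 : ∑ r ∈ S, g r ≤ K * C + X) :
    ∑ r ∈ S, g r ^ 2 ≤ 2 * K * δ * C ^ 2 + ((2 * K + δ) ^ 2 / (4 * K * δ) + 2) * X ^ 2 := by
  have hK0 : 0 < K := by linarith
  have h3 : ∑ r ∈ S, g r ^ 2 ≤ ∑ r ∈ S, (2 * X + δ * C) * g r := by
    refine sum_le_sum fun r hr => ?_
    rw [sq]; exact mul_le_mul_of_nonneg_right (h1 r hr) (hg r hr)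
  rw [← mul_sum] at h3
  have h4 : (2 * X + δ * C) * ∑ r ∈ S, g r ≤ (2 * X + δ * C) * (K * C + X) :=
    mul_le_mul_of_nonneg_left h2 (by positivity)
  have h5 : (2 * K + δ) * X * C ≤ K * δ * C ^ 2 + (2 * K + δ) ^ 2 / (4 * K * δ) * X ^ 2 := by
    have hkd : 0 < 4 * K * δ := by positivity
    rw [div_mul_eq_mul_div, ← sub_le_iff_le_add', le_div_iff₀ hkd]
    nlinarith [sq_nonneg (2 * K * δ * C - (2 * K + δ) * X)]
  nlinarith

end

end Pool.Agent.W_7d29a1_XS
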