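import Pool.Agent.W_7d29a1_XS.Steep

/-!
MP_7d29a1_pr, STORM X, (ES'), the steep steps: LEMMA S with per window inputs, and the iteration over the levels.
-/

namespace Pool.Agent.W_7d29a1_XS

open Finset

noncomputable section

/-- The sum of `A` over all windows of the levels `s, ..., s + i` inside the window `(s + i, k)`. -/
def full (R₀ : ℕ) (A : ℕ → ℕ → ℝ) (s : ℕ) : ℕ → ℕ → ℝ
  | 0, k => A s k
  | i + 1, k => A (s + (i + 1)) k + ∑ r ∈ range R₀, full R₀ A s i (R₀ * k + r)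

/-- The sum over the windows of the level `s` inside `(s + i, k)`. -/
def leaf (R₀ : ℕ) (f : ℕ → ℝ) : ℕ → ℕ → ℝ
  | 0, k => f k
  | i + 1, k => ∑ r ∈ range R₀, leaf R₀ f i (R₀ * k + r)

/-- The sum over the windows of the levels `s + 1, ..., s + i`. -/
def inner (R₀ : ℕ) (A : ℕ → ℕ → ℝ) (s : ℕ) : ℕ → ℕ → ℝ
  | 0, _ => 0
  | i + 1, k => A (s + (i + 1)) k + ∑ r ∈ range R₀, inner R₀ A s i (R₀ * k + r)

variable {R₀ : ℕ} {A : ℕ → ℕ → ℝ} {P : ℕ → ℕ → Prop}

theorem full_nonneg (hA : ∀ i k, 0 ≤ A i k) (s i k : ℕ) : 0 ≤ full R₀ A s i k := by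
  induction i generalizing k with
  | zero => exact hA _ _
  | succ i ih => exact add_nonneg (hA _ _) (sum_nonneg fun _ _ => ih _)

theorem self_le_full (hA : ∀ i k, 0 ≤ A i k) (s i k : ℕ) : A (s + i) k ≤ full R₀ A s i k := by
  cases i with
  | zero => exact le_refl _
  | succ i =>
    have : 0 ≤ ∑ r ∈ range R₀, full R₀ A s i (R₀ * k + r) := sum_nonneg fun _ _ => full_nonneg hA _ _ _
    simp only [full]; linarith

theorem leaf_add_inner (s i k : ℕ) : leaf R₀ (A s) i k + inner R₀ A s i k = full R₀ A s i k := by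
  induction i generalizing k with
  | zero => simp [leaf, inner, full]
  | succ i ih =>
    simp only [leaf, inner, full]
    rw [← sum_congr rfl fun r _ => ih (R₀ * k + r), sum_add_distrib]; ring

theorem leaf_eq (f : ℕ → ℝ) (i k : ℕ) : leaf R₀ f i k = ∑ r ∈ range (R₀ ^ i), f (R₀ ^ i * k + r) := by
  induction i generalizing k with
  | zero => simp [leaf]
  | succ i ih =>
    simp only [leaf]
    rw [sum_congr rfl fun r _ => ih (R₀ * k + r), pow_succ, mul_comm (R₀ ^ i) R₀]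
    have key : ∀ n : ℕ, ∑ r ∈ range n, ∑ r' ∈ range (R₀ ^ i), f (R₀ ^ i * (R₀ * k + r) + r') =
        ∑ r ∈ range (n * R₀ ^ i), f (R₀ * R₀ ^ i * k + r) := by
      intro n
      induction n with
      | zero => simp
      | succ n ihn =>
        rw [sum_range_succ, ihn, Nat.succ_mul, sum_range_add]
        congr 1
        refine sum_congr rfl fun r' _ => ?_
        congr 1; ring
    exact key R₀

/-- The weight of a window is at most the sum of the weights of the windows of the level `s` and the entropies. -/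
theorem w_le_leaf {w : ℕ → ℕ → ℝ} (hP : Her R₀ P)
    (h3 : ∀ i k, P (i + 1) k → w (i + 1) k ≤ ∑ r ∈ range R₀, w i (R₀ * k + r) + A (i + 1) k) (s i k : ℕ) (hk : P (s + i) k) :
    w (s + i) k ≤ leaf R₀ (w s) i k + inner R₀ A s i k := by
  induction i generalizing k with
  | zero => simp [leaf, inner]
  | succ i ih =>
    simp only [leaf, inner]
    have h := h3 (s + i) k hk
    have h' : ∑ r ∈ range R₀, w (s + i) (R₀ * k + r) ≤
        ∑ r ∈ range R₀, (leaf R₀ (w s) i (R₀ * k + r) + inner R₀ A s i (R₀ * k + r)) :=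
      sum_le_sum fun r hr => ih _ (hP _ _ hk r (mem_range.1 hr))
    rw [sum_add_distrib] at h'
    rw [show s + (i + 1) = s + i + 1 from rfl]
    linarith

/-- Input of Lemma S: the Whitney decomposition. -/
theorem Tw_le {f w : ℕ → ℕ → ℝ} (hR : 0 < R₀) (hP : Her R₀ P) (hA : ∀ i k, 0 ≤ A i k) {c₁ C₀ : ℝ}
    (h1 : ∀ i k, P i k → c₁ * f i k ≤ -w i k + A i k) (h2 : ∀ i k, P i k → -w i k ≤ C₀ * f i k + A i k)
    (h3 : ∀ i k, P (i + 1) k → w (i + 1) k ≤ ∑ r ∈ range R₀, w i (R₀ * k + r) + A (i + 1) k) (s k i : ℕ)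
    (hPi : P (s + i) (an R₀ k i)) :
    c₁ * Tw R₀ f s k i ≤ C₀ * f (s + i) (an R₀ k i) + 2 * full R₀ A s i (an R₀ k i) := by
  -- the costs are at most the weights and the errors
  have key : c₁ * Tw R₀ f s k i ≤ -w (s + i) (an R₀ k i) + full R₀ A s i (an R₀ k i) := by
    induction i with
    | zero => simpa [Tw, an, full] using h1 s k (by simpa [an] using hPi)
    | succ i ih =>
      have ih := ih (P_prev hP hR hPi)
      have hch := hP (s + i) _ hPi
      have hm : an R₀ k i % R₀ ∈ range R₀ := mem_range.2 (Nat.mod_lt _ hR)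
      have e1 := sum_children hR w s k i
      have e2 := h3 (s + i) (an R₀ k (i + 1)) hPi
      have e3 : c₁ * sib R₀ f s k i ≤ -sib R₀ w s k i + ∑ r ∈ (range R₀).erase (an R₀ k i % R₀),
          full R₀ A s i (R₀ * an R₀ k (i + 1) + r) := by
        unfold sib
        rw [mul_sum, ← sum_neg_distrib, ← sum_add_distrib]
        refine sum_le_sum fun r hr => ?_
        have := h1 (s + i) (R₀ * an R₀ k (i + 1) + r) (hch r (mem_range.1 (mem_of_mem_erase hr)))
        have := self_le_full (R₀ := R₀) hA s i (R₀ * an R₀ k (i + 1) + r)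
        linarith
      have e4 : full R₀ A s (i + 1) (an R₀ k (i + 1)) = A (s + (i + 1)) (an R₀ k (i + 1)) + (full R₀ A s i (an R₀ k i) +
          ∑ r ∈ (range R₀).erase (an R₀ k i % R₀), full R₀ A s i (R₀ * an R₀ k (i + 1) + r)) := by
        simp only [full]
        rw [← add_sum_erase _ _ hm]
        congr 3
        rw [an_succ, Nat.div_add_mod]
      simp only [Tw]
      rw [e4, show s + (i + 1) = s + i + 1 from rfl]
      rw [e1] at e2
      linarith
  have := h2 (s + i) (an R₀ k i) hPi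
  have := self_le_full (R₀ := R₀) hA s i (an R₀ k i)
  linarith

/-- All windows of the level `s` inside a window of the class. -/
theorem P_leaf (hP : Her R₀ P) {s i k : ℕ} (h : P (s + i) k) : ∀ r < R₀ ^ i, P s (R₀ ^ i * k + r) := by
  induction i generalizing k with
  | zero => intro r hr; have : r = 0 := by simpa using hr
            subst this; simpa using h
  | succ i ih =>
    intro r hr
    have hR : 0 < R₀ ^ i := by
      rcases Nat.eq_zero_or_pos (R₀ ^ i) with h0 | h0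
      · rw [pow_succ, h0] at hr; simp at hr
      · exact h0
    have h1 : r / R₀ ^ i < R₀ := by rw [Nat.div_lt_iff_lt_mul hR]; rwa [pow_succ, mul_comm] at hr
    have h2 := ih (hP _ _ h _ h1) (r % R₀ ^ i) (Nat.mod_lt _ hR)
    have : R₀ ^ i * (R₀ * k + r / R₀ ^ i) + r % R₀ ^ i = R₀ ^ (i + 1) * k + r := by
      have := Nat.div_add_mod r (R₀ ^ i)
      rw [pow_succ]; nlinarith
    rwa [this] at h2

/-- Input of Lemma S: the full decomposition. -/
theorem leaf_le {f w : ℕ → ℕ → ℝ} (hP : Her R₀ P) (hA : ∀ i k, 0 ≤ A i k) {c₁ C₀ : ℝ}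
    (h1 : ∀ i k, P i k → c₁ * f i k ≤ -w i k + A i k) (h2 : ∀ i k, P i k → -w i k ≤ C₀ * f i k + A i k)
    (h3 : ∀ i k, P (i + 1) k → w (i + 1) k ≤ ∑ r ∈ range R₀, w i (R₀ * k + r) + A (i + 1) k) (s i k : ℕ) (hk : P (s + i) k) :
    c₁ * leaf R₀ (f s) i k ≤ C₀ * f (s + i) k + 2 * full R₀ A s i k := by
  have e1 : c₁ * leaf R₀ (f s) i k ≤ -leaf R₀ (w s) i k + leaf R₀ (A s) i k := by
    rw [leaf_eq, leaf_eq, leaf_eq, mul_sum, ← sum_neg_distrib, ← sum_add_distrib]
    exact sum_le_sum fun r hr => h1 _ _ (P_leaf hP hk r (mem_range.1 hr))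
  have e2 := w_le_leaf hP h3 s i k hk
  have e3 := leaf_add_inner (R₀ := R₀) (A := A) s i k
  have e4 := h2 (s + i) k hk
  have e5 := self_le_full (R₀ := R₀) hA s i k
  linarith

/-- The constants of Lemma S. -/
def dS (K K₂ : ℝ) (b : ℕ) : ℝ := 2 * K * ((1 + 1 / (2 * K * K₂))⁻¹) ^ b
def qS (K K₂ : ℝ) (b : ℕ) : ℝ := 2 * K * dS K K₂ b
def CS (K K₂ : ℝ) (b : ℕ) : ℝ := (2 * K + dS K K₂ b) ^ 2 / (4 * K * dS K K₂ b) + 2

theorem dS_pos {K K₂ : ℝ} (hK : 0 < K) (hK₂ : 0 < K₂) (b : ℕ) : 0 < dS K K₂ b := by unfold dS; positivity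

/-- `q` is as small as we like. -/
theorem qS_tendsto {K K₂ : ℝ} (hK : 0 < K) (hK₂ : 0 < K₂) :
    Filter.Tendsto (fun b => qS K K₂ b) Filter.atTop (nhds 0) := by
  have h1 : ((1 + 1 / (2 * K * K₂))⁻¹ : ℝ) < 1 := by
    apply inv_lt_one_of_one_lt₀
    have : 0 < 1 / (2 * K * K₂) := by positivity
    linarith
  have h := (tendsto_pow_atTop_nhds_zero_of_lt_one (by positivity) h1).const_mul (2 * K * (2 * K))
  simp only [mul_zero] at h
  refine h.congr fun b => ?_
  unfold qS dS; ring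

variable {c : ℕ → ℝ → ℝ} {cap : ℕ → ℝ} {K₂ ε : ℝ} {x : ℕ → ℝ}

/-- **Lemma S.** One window `Q = (s + b, k)` and its children of the level `s`. -/
theorem lemmaS (hc : Cost R₀ c cap K₂ ε) (hR : 0 < R₀) (hP : Her R₀ P) (hx : ∀ i k, P i k → ds R₀ x i k ≤ cap i)
    {w : ℕ → ℕ → ℝ} {c₁ C₀ : ℝ}
    (hc₁ : 0 < c₁) (hC₀ : c₁ ≤ C₀) (hK₂ : 0 < K₂) (hε : 2 * (C₀ / c₁) * ε < 1) (hA : ∀ i k, 0 ≤ A i k)
    (h1 : ∀ i k, P i k → c₁ * cc R₀ c x i k ≤ -w i k + A i k) (h2 : ∀ i k, P i k → -w i k ≤ C₀ * cc R₀ c x i k + A i k)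
    (h3 : ∀ i k, P (i + 1) k → w (i + 1) k ≤ ∑ r ∈ range R₀, w i (R₀ * k + r) + A (i + 1) k) (s b k : ℕ) (hk : P (s + b) k) :
    ∑ r ∈ range (R₀ ^ b), cc R₀ c x s (R₀ ^ b * k + r) ^ 2 ≤
      qS (C₀ / c₁) K₂ b * cc R₀ c x (s + b) k ^ 2 + CS (C₀ / c₁) K₂ b * (2 / c₁ * full R₀ A s b k) ^ 2 := by
  set K : ℝ := C₀ / c₁ with hKd
  have hK : 1 ≤ K := by rw [hKd, le_div_iff₀ hc₁]; linarith
  have hK0 : 0 < K := by linarith
  set X : ℝ := 2 / c₁ * full R₀ A s b k with hX
  have hX0 : 0 ≤ X := by have := full_nonneg (R₀ := R₀) hA s b k; positivity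
  have hfn : ∀ i k, 0 ≤ cc R₀ c x i k := fun i k => cc_nonneg hc i k
  -- an ancestor of a leaf
  have han : ∀ r < R₀ ^ b, an R₀ (R₀ ^ b * k + r) b = k := by
    intro r hr
    unfold an
    rw [Nat.mul_add_div (by positivity), Nat.div_eq_of_lt hr, add_zero]
  -- the sum over a smaller ancestor
  have hfull : ∀ r < R₀ ^ b, ∀ i ≤ b, full R₀ A s i (an R₀ (R₀ ^ b * k + r) i) ≤ full R₀ A s b k := by
    intro r hr i hi
    obtain ⟨d, rfl⟩ := Nat.exists_eq_add_of_le hi
    have hstep : ∀ j k', full R₀ A s j (an R₀ k' j) ≤ full R₀ A s (j + 1) (an R₀ k' (j + 1)) := by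
      intro j k'
      have hm : an R₀ k' j % R₀ ∈ range R₀ := mem_range.2 (Nat.mod_lt _ hR)
      simp only [full]
      have e1 : full R₀ A s j (an R₀ k' j) ≤ ∑ r ∈ range R₀, full R₀ A s j (R₀ * an R₀ k' (j + 1) + r) := by
        have := single_le_sum (f := fun r => full R₀ A s j (R₀ * an R₀ k' (j + 1) + r))
          (fun r _ => full_nonneg hA _ _ _) hm
        refine le_trans (le_of_eq ?_) this
        show _ = full R₀ A s j (R₀ * an R₀ k' (j + 1) + an R₀ k' j % R₀)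
        rw [an_succ, Nat.div_add_mod]
      linarith [hA (s + (j + 1)) (an R₀ k' (j + 1))]
    have hmany : ∀ d, full R₀ A s i (an R₀ (R₀ ^ (i + d) * k + r) i) ≤
        full R₀ A s (i + d) (an R₀ (R₀ ^ (i + d) * k + r) (i + d)) := by
      intro d
      have : ∀ d k', full R₀ A s i (an R₀ k' i) ≤ full R₀ A s (i + d) (an R₀ k' (i + d)) := by
        intro d k'
        induction d with
        | zero => exact le_refl _
        | succ d ih => exact le_trans ih (hstep _ _)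
      exact this d _
    refine le_trans (hmany d) (le_of_eq ?_)
    rw [han r hr]
  have hchild : ∀ r ∈ range (R₀ ^ b), cc R₀ c x s (R₀ ^ b * k + r) ≤ 2 * X + dS K K₂ b * cc R₀ c x (s + b) k := by
    intro r hr
    have hr' := mem_range.1 hr
    have hPb : P (s + b) (an R₀ (R₀ ^ b * k + r) b) := by rw [han r hr']; exact hk
    have h := child_le hc hR hP hx hK hK₂ hε s (R₀ ^ b * k + r) b hPb hX0 (by
      intro i hi
      have e1 := Tw_le hR hP hA h1 h2 h3 s (R₀ ^ b * k + r) i (P_le hP hR hPb i hi)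
      have e2 := hfull r hr' i hi
      have e3 : c₁ * Tw R₀ (cc R₀ c x) s (R₀ ^ b * k + r) i ≤
          c₁ * (K * cc R₀ c x (s + i) (an R₀ (R₀ ^ b * k + r) i) + X) := by
        have : c₁ * (K * cc R₀ c x (s + i) (an R₀ (R₀ ^ b * k + r) i) + X) =
            C₀ * cc R₀ c x (s + i) (an R₀ (R₀ ^ b * k + r) i) + 2 * full R₀ A s b k := by
          rw [hKd, hX]; field_simp
        rw [this]; linarith
      exact le_of_mul_le_mul_left e3 hc₁)
    rw [han r hr'] at h
    exact h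
  have hsum : ∑ r ∈ range (R₀ ^ b), cc R₀ c x s (R₀ ^ b * k + r) ≤ K * cc R₀ c x (s + b) k + X := by
    have e1 := leaf_le hP hA h1 h2 h3 s b k hk
    rw [leaf_eq] at e1
    have e3 : c₁ * ∑ r ∈ range (R₀ ^ b), cc R₀ c x s (R₀ ^ b * k + r) ≤ c₁ * (K * cc R₀ c x (s + b) k + X) := by
      have : c₁ * (K * cc R₀ c x (s + b) k + X) = C₀ * cc R₀ c x (s + b) k + 2 * full R₀ A s b k := by
        rw [hKd, hX]; field_simp
      rw [this]; exact e1
    exact le_of_mul_le_mul_left e3 hc₁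
  have := one_window (range (R₀ ^ b)) (fun r => cc R₀ c x s (R₀ ^ b * k + r)) (fun r _ => hfn _ _) hK (dS_pos hK0 hK₂ b) hX0
    (hfn (s + b) k) hchild hsum
  unfold qS CS
  exact this

/-- Sums over blocks. -/
theorem sum_blocks (f : ℕ → ℝ) (R M : ℕ) : ∑ k ∈ range (M * R), f k = ∑ k ∈ range M, ∑ r ∈ range R, f (R * k + r) := by
  induction M with
  | zero => simp
  | succ M ih =>
    rw [sum_range_succ, ← ih, Nat.succ_mul, sum_range_add]
    congr 1
    refine sum_congr rfl fun r _ => ?_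
    congr 1; ring

/-- **The iteration.** `M` windows of the level `b J`. -/
theorem steep_sum (hc : Cost R₀ c cap K₂ ε) (hR : 0 < R₀) (hP : Her R₀ P) (hx : ∀ i k, P i k → ds R₀ x i k ≤ cap i)
    {w : ℕ → ℕ → ℝ} {c₁ C₀ : ℝ}
    (hc₁ : 0 < c₁) (hC₀ : c₁ ≤ C₀) (hK₂ : 0 < K₂) (hε : 2 * (C₀ / c₁) * ε < 1) (hA : ∀ i k, 0 ≤ A i k)
    (h1 : ∀ i k, P i k → c₁ * cc R₀ c x i k ≤ -w i k + A i k) (h2 : ∀ i k, P i k → -w i k ≤ C₀ * cc R₀ c x i k + A i k)
    (h3 : ∀ i k, P (i + 1) k → w (i + 1) k ≤ ∑ r ∈ range R₀, w i (R₀ * k + r) + A (i + 1) k) (b M J l : ℕ) (hl : l ≤ J)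
    (hM : ∀ k < M, P (b * J) k) :
    ∑ k ∈ range (M * (R₀ ^ b) ^ (J - l)), cc R₀ c x (b * l) k ^ 2 ≤
      qS (C₀ / c₁) K₂ b ^ (J - l) * ∑ k ∈ range M, cc R₀ c x (b * J) k ^ 2 +
      CS (C₀ / c₁) K₂ b * ∑ l' ∈ Ico l J, qS (C₀ / c₁) K₂ b ^ (l' - l) *
        ∑ k ∈ range (M * (R₀ ^ b) ^ (J - l' - 1)), (2 / c₁ * full R₀ A (b * l') b k) ^ 2 := by
  set q := qS (C₀ / c₁) K₂ b with hq
  set CC := CS (C₀ / c₁) K₂ b with hCC
  have hK0 : 0 < C₀ / c₁ := by have : 0 < C₀ := by linarith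
                               positivity
  have hq0 : 0 ≤ q := by have := dS_pos hK0 hK₂ b; rw [hq]; unfold qS; positivity
  obtain ⟨n, rfl⟩ := Nat.exists_eq_add_of_le hl
  clear hl
  induction n generalizing l with
  | zero => simp
  | succ n ih =>
    have e := ih (l + 1) (by rw [show l + 1 + n = l + (n + 1) from by ring]; exact hM)
    rw [show l + 1 + n = l + (n + 1) from by ring, show l + (n + 1) - (l + 1) = n from by omega] at e
    -- the windows of the level `l + 1`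
    have hM1 : ∀ k < M * (R₀ ^ b) ^ n, P (b * (l + 1)) k := by
      have : ∀ n' l', (∀ k < M, P (b * (l' + n')) k) → ∀ k < M * (R₀ ^ b) ^ n', P (b * l') k := by
        intro n'
        induction n' with
        | zero => intro l' h k hk; exact h k (by simpa using hk)
        | succ n' ih' =>
          intro l' h k hk
          have h1 := ih' (l' + 1) (by rw [show l' + 1 + n' = l' + (n' + 1) from by ring]; exact h)
          have hRb : 0 < R₀ ^ b := by positivity
          have h2 : k / R₀ ^ b < M * (R₀ ^ b) ^ n' := by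
            rw [Nat.div_lt_iff_lt_mul hRb, mul_assoc, ← pow_succ]; exact hk
          have h3 := h1 _ h2
          rw [show b * (l' + 1) = b * l' + b from by ring] at h3
          have h4 := P_leaf hP h3 (k % R₀ ^ b) (Nat.mod_lt _ hRb)
          rwa [Nat.div_add_mod] at h4
      exact this n (l + 1) (by rw [show l + 1 + n = l + (n + 1) from by ring]; exact hM)
    rw [show l + (n + 1) - l = n + 1 from by omega, pow_succ (R₀ ^ b) n, ← mul_assoc, sum_blocks]
    have h4 : ∀ k < M * (R₀ ^ b) ^ n, ∑ r ∈ range (R₀ ^ b), cc R₀ c x (b * l) (R₀ ^ b * k + r) ^ 2 ≤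
        q * cc R₀ c x (b * (l + 1)) k ^ 2 + CC * (2 / c₁ * full R₀ A (b * l) b k) ^ 2 := by
      intro k hk
      have := lemmaS hc hR hP hx hc₁ hC₀ hK₂ hε hA h1 h2 h3 (b * l) b k
        (by rw [show b * l + b = b * (l + 1) from by ring]; exact hM1 k hk)
      rw [show b * (l + 1) = b * l + b from by ring]; exact this
    refine le_trans (sum_le_sum fun k hk => h4 k (mem_range.1 hk)) ?_
    rw [sum_add_distrib, ← mul_sum, ← mul_sum]
    have hI : Ico l (l + (n + 1)) = insert l (Ico (l + 1) (l + (n + 1))) := by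
      ext a; simp only [mem_Ico, mem_insert]; omega
    rw [hI, sum_insert (by simp), Nat.sub_self, pow_zero, one_mul, show l + (n + 1) - l - 1 = n from by omega]
    have e5 : ∑ l' ∈ Ico (l + 1) (l + (n + 1)), q ^ (l' - l) * ∑ k ∈ range (M * (R₀ ^ b) ^ (l + (n + 1) - l' - 1)),
        (2 / c₁ * full R₀ A (b * l') b k) ^ 2 = q * ∑ l' ∈ Ico (l + 1) (l + (n + 1)), q ^ (l' - (l + 1)) *
        ∑ k ∈ range (M * (R₀ ^ b) ^ (l + (n + 1) - l' - 1)), (2 / c₁ * full R₀ A (b * l') b k) ^ 2 := by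
      rw [mul_sum]
      refine sum_congr rfl fun l' hl' => ?_
      have := (mem_Ico.1 hl').1
      rw [show l' - l = (l' - (l + 1)) + 1 from by omega, pow_succ]; ring
    rw [e5]
    have h6 := mul_le_mul_of_nonneg_left e hq0
    refine le_trans (add_le_add_left h6 _) (le_of_eq ?_)
    rw [pow_succ]; ring

end

end Pool.Agent.W_7d29a1_XS
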